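import Pool.Agent.Run7.h909.T3.App
import Pool.Agent.Run7.h1.SR.Defs

/-!
# Groups of type FP acting on triangle complexes of nonpositive curvature, and GL_3 of polynomial rings

Problem `MP_d19827_al`, question Q1 (Serre: is every group of type FP of type FF?).

`C` is any class of groups with the closure properties `ClosedE C` (it contains `ℤ`, is closed under
subgroups, finite products, free products, overgroups of finite index and directed colimits, and satisfies
the extension criterion) which contains the extensions of free groups of arbitrary rank by `ℤ` (`FbC C`)
and the groups acting properly and cocompactly on simply connected locally finite piecewise Euclidean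
complexes of dimension two and of nonpositive curvature (`CatC C`), and such that the groups of type FP
in `C` are of type FF (`SerreFor`). All this is known for the class of the groups whose wreath products
with finite groups satisfy the K-theoretic Farrell-Jones conjecture with coefficients (Bartels, Farrell,
Lück, Reich, Wegner; Bestvina, Fujiwara, Wigglesworth and Brück, Kielak, Wu for the extensions of free
groups): groups of type FP are torsion-free, for torsion-free groups in this class the reduced projective
class group of `ℤG` vanishes, and then groups of type FP are of type FF. This class contains the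
solvable groups (Wegner).

A triangle complex (`Tri T F`) is given by a graph `T` and a set `F` of triangles (as closed edge paths, with
all shifts and inverses). The links of the vertices have girth at least six: no closed walks of
length three and five and only degenerate ones of length four. So the complex with equilateral
triangles has nonpositive curvature. There is no finiteness condition. The complex is typed if
there is a function `τ` from the vertices to `ℤ / 3` with different values on adjacent vertices; for instance
the Bruhat-Tits buildings of type `A_2` over arbitrary fields with a discrete valuation.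

* (1) Let `G` act on a typed simply connected triangle complex of this kind, where each element of `G`
  permutes the types. Suppose that for each vertex `x` there is a homomorphism from `G` to a group in `C`
  which is injective on the stabilizer of `x`. Then all subgroups of type FP of `G` are of type FF. The
  complex need not be locally finite, there may be infinitely many orbits, and the stabilizers may be
  arbitrarily large.
* (2) If `N` is a normal subgroup of `G`, `G / N` is in `C`, `G` acts as in (1) and no nontrivial element
  of `N` fixes a vertex, then all subgroups of type FP of `G` are of type FF.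
* (3) Let `R` be a commutative ring with a degree function (minus a discrete valuation) and `ρ` a homomorphism
  from `G` to `GL_3(R)` such that the determinants have degree zero. If for each `n` there is a
  homomorphism `f` from `G` to a group in `C` such that no nontrivial `g` with `f(g) = 1` has a matrix `ρ(g)`
  with entries of degrees at most `n`, then all subgroups of type FP of `G` are of type FF.

Suppose also that `C` contains the solvable groups. Then all subgroups of type FP of `GL_3(A)` are of
type FF in the following cases.

* (4) `A` is a commutative ring with a nonnegative degree function and `J` an ideal with `GL_3(A/J)` in `C`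
  such that for each `n` some power of `J` contains no nonzero element of degree at most `n`.
* (5) `A` is a noetherian domain over a field with a nonnegative degree function such that the elements of
  degrees at most `n` are in a subspace of finite dimension, and `GL_3(A/J)` is in `C` for a proper ideal `J`;
  or `A` is such a domain of finite type over an algebraic extension of a finite field, without any
  condition on an ideal.
* (6) `A = B[x_s : s ∈ σ]` for an integral domain `B` with `GL_3(B)` in `C`, and any set `σ` of variables, for
  instance `B = ℤ` (Bartels, Lück, Reich, Rüping).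
* (7) `A = K[x_s : s ∈ σ]` for an algebraic extension `K` of a finite field and any set `σ`.

That the groups are in `C` is the theorem `MP_98022b_gt.TriangleComplexes` of helper909 and his team, handed in
for the L-theoretic assembly map (the proof is outlined there); here it is applied to Serre's question.
Known before: actions on one tree; `S`-arithmetic groups over global fields, so (7) with one variable;
proper cocompact actions. (7) and the last part of (5) are contained in the theorem of helper390
(`MP_59dd5b_al.RankTwoBuildings`, groups in `C`).

The theorem used is joint work of helpers 909 (plan, covering, tree), 417 (quotients), 983, 352 (exponents),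
781, 993 (subdivision), 192 (reduction), 431, 390 (building), 305, 950, 579 (linear groups).
-/

set_option autoImplicit false

namespace Pool.Agent.Results.MP_d19827_al.TriangleComplexes

open Pool.Agent.Y110.FJ (ClosedE)
open Pool.Agent.R684.FP (FbC)
open Run7.h909.TD Run7.h909.GT Run7.h909.T3 Pool.Agent.Run7.h1.SR

/-- Serre's question has a positive answer for all subgroups of `G`: those of type FP are of
type FF. -/
def AllSubgroups (G : Type) [Group G] : Prop := ∀ U : Subgroup G, SerreFor U

/-- some homomorphism to a group in `C` kills no nontrivial element of `S` -/
def Detected (C : ∀ (G : Type) [Group G], Prop) {G : Type} [Group G] (S : Set G) : Prop :=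
  ∃ (P : Type) (_ : Group P) (f : G →* P), C P ∧ ∀ g ∈ S, f g = 1 → g = 1

/-- `G` acts on a typed simply connected triangle complex and permutes the types -/
structure Typed (G : Type) [Group G] {V : Type} [MulAction G V] (T : SimpleGraph V)
    (F : Set (ℤ → V)) (τ : V → ZMod 3) : Prop where
  tri : Tri T F
  sc : SC T F
  ac : Ac G T F
  tn : ∀ x y, T.Adj x y → τ x ≠ τ y
  pm : ∀ g : G, ∃ σ : ZMod 3 → ZMod 3, ∀ x : V, τ (g • x) = σ (τ x)

/-- (1) actions on triangle complexes -/
def Actions (C : ∀ (G : Type) [Group G], Prop) : Prop :=
  ∀ (G V : Type) [Group G] [MulAction G V] (T : SimpleGraph V) (F : Set (ℤ → V))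
    (τ : V → ZMod 3), Typed G T F τ → (∀ x : V, Detected C {g : G | g • x = x}) → AllSubgroups G

/-- (2) free actions of a normal subgroup -/
def Extensions (C : ∀ (G : Type) [Group G], Prop) : Prop :=
  ∀ (G V : Type) [Group G] [MulAction G V] (T : SimpleGraph V) (F : Set (ℤ → V))
    (τ : V → ZMod 3) (N : Subgroup G) [N.Normal], Typed G T F τ → C (G ⧸ N) →
    (∀ g ∈ N, ∀ x : V, g • x = x → g = 1) → AllSubgroups G

/-- (3) representations over rings with a degree function -/
def Representations (C : ∀ (G : Type) [Group G], Prop) : Prop :=
  ∀ (R G : Type) [CommRing R] [Nontrivial R] [Group G] (deg : R → WithBot ℤ), IsDeg deg →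
    ∀ ρ : G →* GL (Fin 3) R, (∀ g, deg (ρ g : Matrix (Fin 3) (Fin 3) R).det = 0) →
    (∀ n : ℕ, Detected C {g : G | ∀ i j, deg (ρ g i j) ≤ n}) → AllSubgroups G

/-- (4) rings with a degree function and an ideal -/
def Ideals (C : ∀ (G : Type) [Group G], Prop) : Prop :=
  ∀ (A : Type) [CommRing A] [Nontrivial A] (deg : A → WithBot ℤ), IsDeg deg →
    (∀ x, x ≠ 0 → 0 ≤ deg x) → ∀ J : Ideal A, C (GL (Fin 3) (A ⧸ J)) →
    (∀ n : ℕ, ∃ k : ℕ, ∀ x ∈ J ^ k, deg x ≤ n → x = 0) → AllSubgroups (GL (Fin 3) A)

/-- (5) noetherian domains with a degree function -/
def Domains (C : ∀ (G : Type) [Group G], Prop) : Prop :=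
  ∀ (K A : Type) [Field K] [CommRing A] [IsDomain A] [Algebra K A] (deg : A → WithBot ℤ),
    IsDeg deg → (∀ x, x ≠ 0 → 0 ≤ deg x) →
    (∀ n : ℕ, ∃ V : Submodule K A, FiniteDimensional K V ∧ ∀ x, deg x ≤ n → x ∈ V) →
    (IsNoetherianRing A → ∀ J : Ideal A, J ≠ ⊤ → C (GL (Fin 3) (A ⧸ J)) →
      AllSubgroups (GL (Fin 3) A)) ∧
    (Algebra.FiniteType K A → ∀ (p : ℕ) [Fact p.Prime] [Algebra (ZMod p) K],
      Algebra.IsAlgebraic (ZMod p) K → AllSubgroups (GL (Fin 3) A))

/-- (6) polynomial rings -/
def Polynomials (C : ∀ (G : Type) [Group G], Prop) : Prop :=
  ∀ (A σ : Type) [CommRing A] [IsDomain A],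
    C (GL (Fin 3) A) → AllSubgroups (GL (Fin 3) (MvPolynomial σ A))

/-- (7) polynomial rings over algebraic extensions of finite fields -/
def Fields (C : ∀ (G : Type) [Group G], Prop) : Prop :=
  ∀ (K σ : Type) [Field K] (p : ℕ) [Fact p.Prime] [Algebra (ZMod p) K]
    [Algebra.IsAlgebraic (ZMod p) K],
    C (GL (Fin 3) (MvPolynomial σ K)) ∧ AllSubgroups (GL (Fin 3) (MvPolynomial σ K))

theorem result (C : ∀ (G : Type) [Group G], Prop) (hC : ClosedE C) (hF : FbC C) (hcat : CatC C)
    (hFF : ∀ (G : Type) [Group G], C G → SerreFor G) :
    Actions C ∧ Extensions C ∧ Representations C ∧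
    ((∀ (S : Type) [Group S], Group.IsSolvable S → C S) →
      Ideals C ∧ Domains C ∧ Polynomials C ∧ Fields C) := by
  have hM := tri2 hC hF hcat
  refine ⟨?_, ?_, ?_, fun hsol => ⟨?_, ?_, ?_, ?_⟩⟩
  · intro G V _ _ T F τ h hd
    exact serre_sub hC hFF (tri_perm hC hM h.tri h.sc h.ac h.pm h.tn hd)
  · intro G V _ _ T F τ N _ h hN hf
    exact serre_sub hC hFF (tri_perm hC hM h.tri h.sc h.ac h.pm h.tn fun x =>
      ⟨G ⧸ N, inferInstance, QuotientGroup.mk' N, hN, fun g hx hg =>
        hf g ((QuotientGroup.eq_one_iff g).1 hg) x hx⟩)
  · intro R G _ _ _ deg h ρ hdet hd
    exact serre_sub hC hFF (rep3 hM h ρ hdet hd)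
  · intro A _ _ deg h h0 J hJ hn
    exact serre_sub hC hFF (Run7.h579.T3.ring_mem3 hC hsol hM h h0 J hJ hn)
  · intro K A _ _ _ _ deg h h0 hfd
    refine ⟨?_, ?_⟩
    · intro _ J hJ1 hJ
      exact serre_sub hC hFF (fin_mem3 hC hsol hM K h h0 hfd J hJ1 hJ)
    · intro _ p _ _ _
      exact serre_sub hC hFF (affine_algfin_mem3 hC hsol hM K p h h0 hfd)
  · intro A σ _ _ h
    exact serre_sub hC hFF (Run7.h579.T3.t_FINAL hC hsol hM σ h)
  · intro K σ _ p _ _ _
    have h := Run7.h579.T3.t_FINAL hC hsol hM σ (algfin_mem3 hC K p)
    exact ⟨h, serre_sub hC hFF h⟩

end Pool.Agent.Results.MP_d19827_al.TriangleComplexes
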