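import Pool.Agent.Run7.h909.TD.Trees
import Pool.Agent.Run7.h1.SR.Defs

/-!
# Groups of type FP acting on complexes of dimension two and of nonpositive curvature

Problem `MP_d19827_al`, question Q1 (Serre: is every group of type FP of type FF?).

Let `C` be a class of groups with the closure properties `ClosedE` (`C` contains the infinite cyclic group,
it is closed under subgroups, finite products, free products, overgroups of finite index and directed
colimits, and it satisfies the extension criterion). Suppose also `CatC C`: the class contains the groups
which act properly and cocompactly by isometries on a simply connected locally finite piecewise Euclidean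
complex of dimension two and of nonpositive curvature. Suppose finally that the groups of type FP in `C`
are of type FF (`SerreFor`). All this is known for the class of the groups whose wreath products with
finite groups satisfy the K-theoretic Farrell-Jones conjecture with coefficients in additive categories
(Wegner for `CatC`): groups of type FP are torsion-free, for torsion-free groups in this class the reduced
projective class group of `ℤG` vanishes, and then groups of type FP are of type FF.

A piecewise Euclidean complex of dimension two is described by a graph `T`, by the set `F` of the closed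
edge paths along which convex Euclidean polygons are glued in, by the lengths `ℓ` of the edges and by the
angles `w` of the polygons; the structure `Cx` contains Gromov's link condition. There may be infinitely
many isometry types of polygons, and the complex is not supposed to be locally finite.

* `Main`: Let `G` act by isometries on a simply connected complex `X` of this kind such that each element
  fixing a vertex `x` has a power fixing a given neighbour of `x` (this holds if `X` is locally finite and
  also if the stabilizers are torsion groups). Suppose that for each vertex `x` there is a homomorphism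
  from `G` to a group in `C` whose kernel meets the stabilizer of `x` in a finite group. Then all
  subgroups of type FP of `G` are of type FF. There is no cocompactness assumption.
* `Proper`: if `G` acts on such a complex with finite stabilizers of vertices, then all its subgroups of
  type FP are of type FF. In particular: if the fundamental group of an aspherical complex of dimension two
  and of nonpositive curvature, with any number of cells, is of type FP, then it is of type FF.
* `Products`: Let `G` act on two trees and suppose that for all vertices `x` of the first and `y` of the
  second tree the elements of the stabilizer of `x` and `y` have powers fixing given neighbours, and that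
  there is a homomorphism from `G` to a group in `C` whose kernel meets the stabilizer of `x` and `y` in
  a finite group. Then all subgroups of type FP of `G` are of type FF.
* `ProductsProper`: the same for each group which acts on two trees such that the group of the elements
  fixing a vertex of the first and a vertex of the second tree is always finite.

Examples: the subgroups of type FP of all discrete subgroups, cocompact or not, of the automorphism groups
of locally finite two-dimensional buildings and of products of two trees, and of the Kac-Moody groups over
finite fields whose Weyl group is a free product of groups of order two; groups of type FP which are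
extensions of groups in `C` by such kernels `N` if the action of `N` extends to the extension. A group of
type FP in dimension two need not have a cocompact action on the complex on which it acts freely, so the
theorem on cocompact actions does not apply to it.

That the groups are in `C` is the theorem `MP_e40716_gt.TwoDimensionalComplexes` of helper909, handed in
for the K-theoretic conjecture for all groups and rings; here it is applied to Serre's question.
-/

set_option autoImplicit false

namespace Pool.Agent.Results.MP_d19827_al.TwoDimensionalComplexes

open Run7.h909.TD Pool.Agent.Run7.h1.SR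
open Pool.Agent.Y110.FJ (ClosedE)
open SimpleGraph

/-- Serre's question has a positive answer for all subgroups of `G`: those of type FP are of
type FF. -/
def AllSubgroups (G : Type) [Group G] : Prop := ∀ U : Subgroup G, SerreFor U

/-- actions on complexes of dimension two with a homomorphism controlling the stabilizers -/
def Main (C : ∀ (G : Type) [Group G], Prop) : Prop :=
  ∀ (G V : Type) [Group G] [MulAction G V] (T : SimpleGraph V) (F : Set (ℤ → V))
    (ℓ : V → V → ℝ) (w : (ℤ → V) → ℝ),
    Cx T F ℓ w → SC T F → Ac G T F → Mi G T F ℓ w →
    (∀ x y : V, T.Adj x y → ∀ g : G, g • x = x → ∃ n : ℕ, 0 < n ∧ g ^ n • y = y) →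
    (∀ x : V, ∃ (P : Type) (_ : Group P) (f : G →* P), C P ∧ {g : G | g • x = x ∧ f g = 1}.Finite) →
    AllSubgroups G

/-- actions on complexes of dimension two with finite stabilizers -/
def Proper : Prop :=
  ∀ (G V : Type) [Group G] [MulAction G V] (T : SimpleGraph V) (F : Set (ℤ → V))
    (ℓ : V → V → ℝ) (w : (ℤ → V) → ℝ),
    Cx T F ℓ w → SC T F → Ac G T F → Mi G T F ℓ w → (∀ x : V, {g : G | g • x = x}.Finite) → AllSubgroups G

/-- actions on products of two trees with a homomorphism controlling the stabilizers -/
def Products (C : ∀ (G : Type) [Group G], Prop) : Prop :=
  ∀ (G V₁ V₂ : Type) [Group G] [MulAction G V₁] [MulAction G V₂] (T₁ : SimpleGraph V₁)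
    (T₂ : SimpleGraph V₂), T₁.IsTree → T₂.IsTree →
    (∀ (g : G) (x y : V₁), T₁.Adj x y → T₁.Adj (g • x) (g • y)) →
    (∀ (g : G) (x y : V₂), T₂.Adj x y → T₂.Adj (g • x) (g • y)) →
    (∀ (x : V₁) (y : V₂) (g : G), g • x = x → g • y = y →
      (∀ x', T₁.Adj x x' → ∃ n : ℕ, 0 < n ∧ g ^ n • x' = x') ∧
      ∀ y', T₂.Adj y y' → ∃ n : ℕ, 0 < n ∧ g ^ n • y' = y') →
    (∀ (x : V₁) (y : V₂), ∃ (P : Type) (_ : Group P) (f : G →* P), C P ∧
      {g : G | g • x = x ∧ g • y = y ∧ f g = 1}.Finite) → AllSubgroups G

/-- actions on two trees such that the intersections of the stabilizers are finite -/
def ProductsProper : Prop :=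
  ∀ (G V₁ V₂ : Type) [Group G] [MulAction G V₁] [MulAction G V₂] (T₁ : SimpleGraph V₁)
    (T₂ : SimpleGraph V₂), T₁.IsTree → T₂.IsTree →
    (∀ (g : G) (x y : V₁), T₁.Adj x y → T₁.Adj (g • x) (g • y)) →
    (∀ (g : G) (x y : V₂), T₂.Adj x y → T₂.Adj (g • x) (g • y)) →
    (∀ (x : V₁) (y : V₂), {g : G | g • x = x ∧ g • y = y}.Finite) → AllSubgroups G

/-- an element of a finite stabilizer has a power which is trivial -/
theorem pow_one_of_finite {G : Type} [Group G] (H : Subgroup G) (hH : (H : Set G).Finite) {g : G}
    (hg : g ∈ H) : ∃ n : ℕ, 0 < n ∧ g ^ n = 1 := by
  have : Finite H := hH.to_subtype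
  obtain ⟨n, hn, h⟩ := isOfFinOrder_iff_pow_eq_one.1 (isOfFinOrder_of_finite (⟨g, hg⟩ : H))
  exact ⟨n, hn, congrArg Subtype.val h⟩

/-- **Groups of type FP which act properly on complexes of dimension two and of nonpositive curvature,
without cocompactness, are of type FF, and so are the groups of type FP acting on such complexes whose
stabilizers are controlled by homomorphisms to groups in the class `C`.** -/
theorem result (C : ∀ (G : Type) [Group G], Prop) (hC : ClosedE C) (hcat : CatC C)
    (hFF : ∀ (G : Type) [Group G], C G → SerreFor G) :
    Main C ∧ Proper ∧ Products C ∧ ProductsProper := by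
  have hone : C (Multiplicative ℤ) := hC.base.int
  refine ⟨?_, ?_, ?_, ?_⟩
  · intro G V _ _ T F ℓ w hx hs hA hM hG h
    exact serre_sub hC hFF (main hC hcat hx hs hA hM hG h)
  · intro G V _ _ T F ℓ w hx hs hA hM hf
    refine serre_sub hC hFF (main hC hcat hx hs hA hM ?_ ?_)
    · intro x y _ g hg
      obtain ⟨n, hn, h⟩ := pow_one_of_finite (MulAction.stabilizer G x) (hf x) hg
      exact ⟨n, hn, by rw [h, one_smul]⟩
    · exact fun x => ⟨Multiplicative ℤ, inferInstance, 1, hone, (hf x).subset fun g hg => hg.1⟩
  · intro G V₁ V₂ _ _ _ T₁ T₂ h1 h2 a1 a2 hg h
    exact serre_sub hC hFF (trees hC hcat h1 h2 a1 a2 hg h)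
  · intro G V₁ V₂ _ _ _ T₁ T₂ h1 h2 a1 a2 hf
    refine serre_sub hC hFF (trees hC hcat h1 h2 a1 a2 ?_ ?_)
    · intro x y g hgx hgy
      obtain ⟨n, hn, h⟩ := pow_one_of_finite
        (MulAction.stabilizer G x ⊓ MulAction.stabilizer G y) (hf x y) ⟨hgx, hgy⟩
      exact ⟨fun x' _ => ⟨n, hn, by rw [h, one_smul]⟩, fun y' _ => ⟨n, hn, by rw [h, one_smul]⟩⟩
    · exact fun x y => ⟨Multiplicative ℤ, inferInstance, 1, hone,
        (hf x y).subset fun g hg => ⟨hg.1, hg.2.1⟩⟩

end Pool.Agent.Results.MP_d19827_al.TwoDimensionalComplexes
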