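import Pool.Agent.Run7.h909.TT.MvA
import Pool.Agent.Run7.h1.SR.Defs

/-!
# Groups of type FP acting on two trees

Problem `MP_d19827_al`, question Q1 (Serre: is every group of type FP of type FF?).

`C` is any class of groups with the closure properties `ClosedE C` (it contains `ℤ`, is closed under
subgroups, finite products, free products, overgroups of finite index and directed colimits, and satisfies
the extension criterion) which contains the extensions of free groups of arbitrary rank by `ℤ` (`FbC C`)
and the groups acting properly and cocompactly on simply connected locally finite piecewise Euclidean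
complexes of dimension two and of nonpositive curvature (`CatC C`), and such that the groups of type FP
in `C` are of type FF (`SerreFor`). All this is known for the class of the groups whose wreath products
with finite groups satisfy the K-theoretic Farrell-Jones conjecture with coefficients (Bartels, Lück,
Reich, Wegner; Bestvina, Fujiwara, Wigglesworth and Brück, Kielak, Wu for the extensions of free groups):
groups of type FP are torsion-free, for torsion-free groups in this class the reduced projective class
group of `ℤG` vanishes, and then groups of type FP are of type FF.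

* (1) Let `G` act on two trees. Suppose that for all vertices `x` of the first and `y` of the second tree
  there is a homomorphism from `G` to a group in `C` which is injective on the group of the elements that
  fix `x` and `y`. Then all subgroups of type FP of `G` are of type FF. Nothing else is assumed: the trees
  need not be locally finite, the action on the product need not be cocompact, and the stabilizers may be
  arbitrarily large.
* (2) If `N` is a normal subgroup of `G`, `G / N` is in `C`, `G` acts on two trees and no nontrivial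
  element of `N` fixes vertices of both trees, then all subgroups of type FP of `G` are of type FF. In
  particular this holds for all groups acting freely on the product of two trees, with any quotient.
* (3) Let `ρ₁`, `ρ₂` be homomorphisms from `G` to `GL_2(R₁)`, `GL_2(R₂)`, where `R₁`, `R₂` are rings with
  degree functions (minus discrete valuations). Suppose that for each `n` there is a homomorphism from `G`
  to a group in `C` which does not kill any `g ≠ 1` for which the entries of `ρ₁ g`, `ρ₂ g` have
  degrees at most `n` and the determinants have degree `0`. Then all subgroups of type FP of `G` are of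
  type FF.

Suppose also that `C` contains the solvable groups. Then all subgroups of type FP of `GL_2(A)` are of
type FF in the following cases.

* (4) `A` is a ring with two degree functions and an ideal `J` such that for every `n` some power of
  `J` has no nonzero elements whose degrees are both at most `n`, and `GL_2(A / J)` is in `C`.
* (5) `A` is a noetherian domain over a field `K` with two degree functions such that the elements
  whose degrees are both at most `n` span a finite dimensional space over `K` for every `n` (for instance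
  the ring of an affine curve with two places at infinity), and `GL_2(A / J)` is in `C` for one proper
  ideal `J`.
* (6) `A = B[M]` is the monoid ring of a commutative, cancellative and torsion-free monoid `M` over an
  integral domain `B` with `GL_2(B)` in `C`, for instance over `B = ℤ`, over an algebraic extension `B` of
  a finite field, or (Rüping) over a number field `B`.
* (7) `A = B[x_i, i ∈ σ][1 / f]` for a prime element `f` which is not a constant, where `B` is an integral
  domain and `GL_2(B[1 / f(b)])` is in `C` for a point `b` with `f(b) ≠ 0`.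

That the groups are in `C` is the theorem `MP_98022b_gt.TwoTrees` of helper909, handed in for the
L-theoretic assembly map (the proof is outlined there); here it is applied to Serre's question. The one
tree case of (1) is in the starting files (`N24.TR`). The group `GL_2(B[x, x⁻¹])` acts on two trees with
the stabilizers `GL_2(B[x])` and `GL_2(B[x⁻¹])`, which are neither small nor malnormal.
-/

set_option autoImplicit false

namespace Pool.Agent.Results.MP_d19827_al.TwoTrees

open Pool.Agent.Y110.FJ (ClosedE)
open Pool.Agent.R684.FP (FbC)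
open Run7.h909.GT Run7.h909.TD Run7.h909.TT Pool.Agent.Run7.h1.SR

/-- Serre's question has a positive answer for all subgroups of `G`: those of type FP are of
type FF. -/
def AllSubgroups (G : Type) [Group G] : Prop := ∀ U : Subgroup G, SerreFor U

/-- (1) actions on two trees -/
def Trees (C : ∀ (G : Type) [Group G], Prop) : Prop :=
  ∀ (G V₁ V₂ : Type) [Group G] [MulAction G V₁] [MulAction G V₂] (T₁ : SimpleGraph V₁)
    (T₂ : SimpleGraph V₂), T₁.IsTree → T₂.IsTree →
    (∀ (g : G) (x y : V₁), T₁.Adj x y → T₁.Adj (g • x) (g • y)) →
    (∀ (g : G) (x y : V₂), T₂.Adj x y → T₂.Adj (g • x) (g • y)) →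
    (∀ (x : V₁) (y : V₂), ∃ (P : Type) (_ : Group P) (f : G →* P), C P ∧
      ∀ g : G, g • x = x → g • y = y → f g = 1 → g = 1) → AllSubgroups G

/-- (2) actions on two trees, free actions of a normal subgroup on the product -/
def Extensions (C : ∀ (G : Type) [Group G], Prop) : Prop :=
  ∀ (G V₁ V₂ : Type) [Group G] [MulAction G V₁] [MulAction G V₂] (T₁ : SimpleGraph V₁)
    (T₂ : SimpleGraph V₂) (N : Subgroup G) [N.Normal], T₁.IsTree → T₂.IsTree →
    (∀ (g : G) (x y : V₁), T₁.Adj x y → T₁.Adj (g • x) (g • y)) →
    (∀ (g : G) (x y : V₂), T₂.Adj x y → T₂.Adj (g • x) (g • y)) → C (G ⧸ N) →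
    (∀ g ∈ N, ∀ (x : V₁) (y : V₂), g • x = x → g • y = y → g = 1) → AllSubgroups G

/-- (3) two representations over rings with a degree function -/
def Representations (C : ∀ (G : Type) [Group G], Prop) : Prop :=
  ∀ (R₁ R₂ G : Type) [CommRing R₁] [CommRing R₂] [Nontrivial R₁] [Nontrivial R₂] [Group G]
    (deg₁ : R₁ → WithBot ℤ) (deg₂ : R₂ → WithBot ℤ), IsDeg deg₁ → IsDeg deg₂ →
    ∀ (ρ₁ : G →* GL (Fin 2) R₁) (ρ₂ : G →* GL (Fin 2) R₂),
    (∀ n : ℕ, ∃ (P : Type) (_ : Group P) (f : G →* P), C P ∧ ∀ g : G,
      (∀ i j, deg₁ (ρ₁ g i j) ≤ n) → (∀ i j, deg₂ (ρ₂ g i j) ≤ n) →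
      deg₁ (ρ₁ g : Matrix (Fin 2) (Fin 2) R₁).det = 0 →
      deg₂ (ρ₂ g : Matrix (Fin 2) (Fin 2) R₂).det = 0 → f g = 1 → g = 1) → AllSubgroups G

/-- (4) rings with two degree functions and an ideal -/
def Ideals (C : ∀ (G : Type) [Group G], Prop) : Prop :=
  ∀ (A : Type) [CommRing A] [Nontrivial A] (deg₁ deg₂ : A → WithBot ℤ), IsDeg deg₁ →
    IsDeg deg₂ → ∀ J : Ideal A, C (GL (Fin 2) (A ⧸ J)) →
    (∀ n : ℕ, ∃ k : ℕ, ∀ x ∈ J ^ k, deg₁ x ≤ n → deg₂ x ≤ n → x = 0) →
    AllSubgroups (GL (Fin 2) A)

/-- (5) noetherian domains with two degree functions -/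
def Domains (C : ∀ (G : Type) [Group G], Prop) : Prop :=
  ∀ (K A : Type) [Field K] [CommRing A] [IsDomain A] [IsNoetherianRing A] [Algebra K A]
    (deg₁ deg₂ : A → WithBot ℤ), IsDeg deg₁ → IsDeg deg₂ →
    (∀ n : ℕ, ∃ V : Submodule K A, FiniteDimensional K V ∧
      ∀ x, deg₁ x ≤ n → deg₂ x ≤ n → x ∈ V) →
    ∀ J : Ideal A, J ≠ ⊤ → C (GL (Fin 2) (A ⧸ J)) → AllSubgroups (GL (Fin 2) A)

/-- (6) monoid rings of torsion-free cancellative commutative monoids -/
def MonoidRings (C : ∀ (G : Type) [Group G], Prop) : Prop :=
  ∀ (M : Type) [AddCommMonoid M] [IsCancelAdd M] [IsAddTorsionFree M],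
    (∀ (A : Type) [CommRing A] [IsDomain A], C (GL (Fin 2) A) →
      AllSubgroups (GL (Fin 2) (AddMonoidAlgebra A M))) ∧
    AllSubgroups (GL (Fin 2) (AddMonoidAlgebra ℤ M)) ∧
    ∀ (K : Type) [Field K] (p : ℕ) [Fact p.Prime] [Algebra (ZMod p) K]
      [Algebra.IsAlgebraic (ZMod p) K], AllSubgroups (GL (Fin 2) (AddMonoidAlgebra K M))

/-- (7) polynomial rings with the inverse of a prime element -/
def PrimeElements (C : ∀ (G : Type) [Group G], Prop) : Prop :=
  ∀ (A σ : Type) [CommRing A] [IsDomain A] (f : MvPolynomial σ A), Prime f →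
    0 < f.totalDegree → ∀ b : σ → A, MvPolynomial.eval b f ≠ 0 →
    C (GL (Fin 2) (Localization.Away (MvPolynomial.eval b f))) →
    AllSubgroups (GL (Fin 2) (Localization.Away f))

theorem result (C : ∀ (G : Type) [Group G], Prop) (hC : ClosedE C) (hF : FbC C) (hcat : CatC C)
    (hFF : ∀ (G : Type) [Group G], C G → SerreFor G) :
    Trees C ∧ Extensions C ∧ Representations C ∧
    ((∀ (S : Type) [Group S], Group.IsSolvable S → C S) →
      Ideals C ∧ Domains C ∧ MonoidRings C ∧ PrimeElements C) := by
  refine ⟨?_, ?_, ?_, fun hsol => ⟨?_, ?_, ?_, ?_⟩⟩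
  · intro G V₁ V₂ _ _ _ T₁ T₂ h1 h2 a1 a2 h
    exact serre_sub hC hFF (two_trees hC hF hcat h1 h2 a1 a2 h)
  · intro G V₁ V₂ _ _ _ T₁ T₂ N _ h1 h2 a1 a2 hN h
    refine serre_sub hC hFF (two_trees hC hF hcat h1 h2 a1 a2 fun x y =>
      ⟨G ⧸ N, inferInstance, QuotientGroup.mk' N, hN, fun g hx hy hg => ?_⟩)
    exact h g ((QuotientGroup.eq_one_iff g).1 hg) x y hx hy
  · intro R₁ R₂ G _ _ _ _ _ deg₁ deg₂ h1 h2 ρ₁ ρ₂ h
    exact serre_sub hC hFF (two_rep hC hF hcat h1 h2 ρ₁ ρ₂ h)
  · intro A _ _ deg₁ deg₂ h1 h2 J hJ hn
    exact serre_sub hC hFF (two_ring hC hF hcat hsol h1 h2 J hJ hn)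
  · intro K A _ _ _ _ _ deg₁ deg₂ h1 h2 hfd J hJ1 hJ
    exact serre_sub hC hFF (two_fin hC hF hcat hsol K h1 h2 hfd J hJ1 hJ)
  · intro M _ _ _
    refine ⟨?_, ?_, ?_⟩
    · intro A _ _ h
      exact serre_sub hC hFF (mon_mem hC hF hcat hsol h M)
    · exact serre_sub hC hFF (mon_mem hC hF hcat hsol (GL2Z_mem hC) M)
    · intro K _ p _ _ _
      exact serre_sub hC hFF (mon_mem hC hF hcat hsol (algfin_mem hC K p) M)
  · intro A σ _ _ f hf hfd b hb0 h
    exact serre_sub hC hFF (mv_away hC hF hcat hsol f hf hfd b hb0 h)

end Pool.Agent.Results.MP_d19827_al.TwoTrees
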